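import Pool.Agent.H38.O1.N3

set_option autoImplicit false

/-!
In a finite simple automorphic loop of odd order the inversion fixes only the identity element.
-/

namespace ALoop

open Equiv

variable {Q : Type*} {G : Subgroup (Perm Q)} {L : Q → Perm Q} {J : Perm Q} {e : Q}

/-- the fixed points of a permutation of 2-power order on an invariant set of odd size -/
theorem odd_step [Finite Q] {S : Set Q} (hS : Odd (Nat.card S)) {f : Perm Q} {k : ℕ}
    (hf : f ^ 2 ^ k = 1) (hfS : ∀ x ∈ S, f x ∈ S) :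
    Odd (Nat.card {x | x ∈ S ∧ f x = x}) := by
  classical
  have : Fact (Nat.Prime 2) := ⟨Nat.prime_two⟩
  have := Fintype.ofFinite Q
  let F : Function.End S := fun x => ⟨f x, hfS x x.2⟩
  have hFn : ∀ (n : ℕ) (x : S), (((F ^ n) x : S) : Q) = (f ^ n) x := by
    intro n
    induction n with
    | zero => intro x; rfl
    | succ n ih =>
      intro x
      have h1 : (F ^ (n + 1)) x = (F ^ n) (F x) := by rw [pow_succ]; rfl
      rw [h1, ih, pow_succ, Perm.mul_apply]
  have hF : F ^ 2 ^ k = 1 := by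
    funext x
    apply Subtype.ext
    rw [hFn, hf]; rfl
  have h1 := Equiv.Perm.card_fixedPoints_modEq hF
  have h2 : Fintype.card S = Nat.card S := Nat.card_eq_fintype_card.symm
  have h3 : Fintype.card (Function.fixedPoints F) = Nat.card {x | x ∈ S ∧ f x = x} := by
    rw [← Nat.card_eq_fintype_card]
    refine Nat.card_congr ⟨fun x => ⟨x.1.1, x.1.2, ?_⟩, fun x => ⟨⟨x.1, x.2.1⟩, ?_⟩, ?_, ?_⟩
    · exact congrArg Subtype.val x.2
    · exact Subtype.ext x.2.2
    · intro x; rfl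
    · intro x; rfl
  rw [h2, h3] at h1
  rw [Nat.odd_iff] at hS ⊢
  rw [← hS]; exact h1.symm

theorem zpow2 {f : Perm Q} {k : ℕ} (hf : f ^ 2 ^ k = 1) : IsPGroup 2 (Subgroup.zpowers f) := by
  rintro ⟨g, n, rfl⟩
  refine ⟨k, ?_⟩
  apply Subtype.ext
  change (f ^ n) ^ 2 ^ k = 1
  rw [← zpow_natCast, ← zpow_mul, mul_comm, zpow_mul, zpow_natCast, hf, one_zpow]

namespace AL

/-- two different points `p`, `q` with commuting `D p`, `D q` do not exist -/
theorem no_pair [Finite Q] (h : AL G L J e) (hodd : Odd (Nat.card Q)) {p₀ q₀ : Q} (hpq₀ : p₀ ≠ q₀)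
    (hc₀ : D L J p₀ * D L J q₀ = D L J q₀ * D L J p₀) : False := by
  classical
  have hp2 : Fact (Nat.Prime 2) := ⟨Nat.prime_two⟩
  have h0 := h.al0
  let Fam : Set (Subgroup (Perm Q)) := {V | V ≤ G ∧ IsPGroup 2 V ∧ ∃ p q, p ≠ q ∧
    D L J p * D L J q = D L J q * D L J p ∧ ∀ v ∈ V, v p = p ∧ v q = q}
  have hFne : Fam.Nonempty := by
    refine ⟨⊥, bot_le, IsPGroup.of_bot, p₀, q₀, hpq₀, hc₀, ?_⟩
    intro v hv
    rw [Subgroup.mem_bot] at hv
    rw [hv]; exact ⟨rfl, rfl⟩
  obtain ⟨V, ⟨hVG, hV2, p, q, hpq, hcpq, hVpq⟩, hmax⟩ := (Set.toFinite Fam).exists_maximal hFne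
  have hDV : ∀ v ∈ V, ∀ x, v x = x → v * D L J x = D L J x * v := by
    intro v hv x hx
    have h1 := h.D_conj (hVG hv) x
    rw [hx, mul_inv_eq_iff_eq_mul] at h1
    exact h1
  -- the swap
  set a : Perm Q := laa L p q with ha
  have haV : ∀ v ∈ V, v * a = a * v := by
    intro v hv
    have h1 := h0.laa_conj (hVG hv) p q
    rw [(hVpq v hv).1, (hVpq v hv).2, mul_inv_eq_iff_eq_mul] at h1
    exact h1
  have haG : a ∈ G := G.mul_mem (G.mul_mem (h.memL _) (h.memL _)) (G.inv_mem (h.memL _))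
  have hLpp : (L p)⁻¹ p = e := by rw [Perm.inv_eq_iff_eq]; exact (h.Le p).symm
  have hap : a p = q := by
    rw [ha]; unfold laa
    rw [Perm.mul_apply, Perm.mul_apply, hLpp, h.Le, apply_inv']
  set y₀ := (L p)⁻¹ q with hy₀
  have hDpe : (L p)⁻¹ * D L J p * ((L p)⁻¹)⁻¹ = J := by
    rw [h.D_conj (G.inv_mem (h.memL p)) p, hLpp, h.D_e]
  have hDqe : (L p)⁻¹ * D L J q * ((L p)⁻¹)⁻¹ = D L J y₀ := by
    rw [h.D_conj (G.inv_mem (h.memL p)) q]
  have hJy : J * D L J y₀ = D L J y₀ * J := by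
    calc J * D L J y₀ = (L p)⁻¹ * D L J p * ((L p)⁻¹)⁻¹ * ((L p)⁻¹ * D L J q * ((L p)⁻¹)⁻¹) := by
          rw [hDpe, hDqe]
      _ = (L p)⁻¹ * (D L J p * D L J q) * ((L p)⁻¹)⁻¹ := by group
      _ = (L p)⁻¹ * (D L J q * D L J p) * ((L p)⁻¹)⁻¹ := by rw [hcpq]
      _ = ((L p)⁻¹ * D L J q * ((L p)⁻¹)⁻¹) * ((L p)⁻¹ * D L J p * ((L p)⁻¹)⁻¹) := by group
      _ = _ := by rw [hDpe, hDqe]
  have hJy0 : J y₀ = y₀ := by
    apply h.D_inj
    rw [← h.D_J, hJy, mul_assoc, h.JJ1, mul_one]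
  have haq : a q = p := by
    rw [ha]; unfold laa
    rw [Perm.mul_apply, Perm.mul_apply, ← hy₀]
    have h1 := h.LJ y₀
    rw [hJy0] at h1
    rw [h1, h.Le]
  -- its 2-part
  obtain ⟨k, m, hm, hkm⟩ := Nat.exists_eq_two_pow_mul_odd (orderOf_pos a).ne'
  set g : Perm Q := a ^ m with hg
  have hgk : g ^ 2 ^ k = 1 := by
    rw [hg, ← pow_mul, mul_comm, ← hkm, pow_orderOf_eq_one]
  have hgG : g ∈ G := G.pow_mem haG m
  have hgV : ∀ v ∈ V, v * g = g * v := fun v hv => ((show Commute v a from haV v hv).pow_right m).eq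
  have haa : (a ^ 2) p = p ∧ (a ^ 2) q = q := by
    rw [pow_two, Perm.mul_apply, Perm.mul_apply, hap, haq, hap]
    exact ⟨rfl, rfl⟩
  have hann : ∀ n : ℕ, (a ^ (2 * n)) p = p ∧ (a ^ (2 * n)) q = q := by
    intro n
    induction n with
    | zero => exact ⟨rfl, rfl⟩
    | succ n ih =>
      rw [Nat.mul_succ, pow_add, Perm.mul_apply, Perm.mul_apply, haa.1, haa.2]
      exact ih
  obtain ⟨n, hn⟩ := hm
  have hgp : g p = q := by
    rw [hg, hn, pow_succ, Perm.mul_apply, hap]
    exact (hann n).2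
  have hgq : g q = p := by
    rw [hg, hn, pow_succ, Perm.mul_apply, haq]
    exact (hann n).1
  have hgDp : g * D L J p * g⁻¹ = D L J q := by rw [h.D_conj hgG, hgp]
  have hgDq : g * D L J q * g⁻¹ = D L J p := by rw [h.D_conj hgG, hgq]
  -- fixed points
  have hS1 : Odd (Nat.card {x : Q | ∀ v ∈ V, v x = x}) := by
    have h1 := hV2.card_modEq_card_fixedPoints Q
    have h2 : Nat.card (MulAction.fixedPoints V Q) = Nat.card {x : Q | ∀ v ∈ V, v x = x} := by
      refine Nat.card_congr (Equiv.setCongr ?_)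
      ext x
      exact ⟨fun hx v hv => hx ⟨v, hv⟩, fun hx v => hx v v.2⟩
    rw [h2] at h1
    rw [Nat.odd_iff] at hodd ⊢
    rw [← hodd]; exact h1.symm
  have hD2 : ∀ x, D L J x ^ 2 ^ 1 = 1 := by
    intro x; rw [pow_one, pow_two]; exact h.D_sq x
  have hS2 := odd_step hS1 (hD2 p) (by
    intro x hx v hv
    have h1 := hDV v hv p (hVpq v hv).1
    have h2 := congrArg (fun (f : Perm Q) => f x) h1
    simp only [Perm.mul_apply] at h2
    rw [h2, hx v hv])
  have hS3 := odd_step hS2 (hD2 q) (by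
    rintro x ⟨hx, hx2⟩
    refine ⟨?_, ?_⟩
    · intro v hv
      have h1 := hDV v hv q (hVpq v hv).2
      have h2 := congrArg (fun (f : Perm Q) => f x) h1
      simp only [Perm.mul_apply] at h2
      rw [h2, hx v hv]
    · have h2 := congrArg (fun (f : Perm Q) => f x) hcpq
      simp only [Perm.mul_apply] at h2
      rw [h2, hx2])
  have hS4 := odd_step hS3 hgk (by
    rintro x ⟨⟨hx, hx2⟩, hx3⟩
    refine ⟨⟨?_, ?_⟩, ?_⟩
    · intro v hv
      have h2 := congrArg (fun (f : Perm Q) => f x) (hgV v hv)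
      simp only [Perm.mul_apply] at h2
      rw [h2, hx v hv]
    · have h1 := hgDq
      rw [mul_inv_eq_iff_eq_mul] at h1
      have h2 := congrArg (fun (f : Perm Q) => f x) h1
      simp only [Perm.mul_apply] at h2
      rw [← h2, hx3]
    · have h1 := hgDp
      rw [mul_inv_eq_iff_eq_mul] at h1
      have h2 := congrArg (fun (f : Perm Q) => f x) h1
      simp only [Perm.mul_apply] at h2
      rw [← h2, hx2])
  obtain ⟨y, ⟨⟨hyV, hyp⟩, hyq⟩, hyg⟩ : ∃ y, ((((∀ v ∈ V, v y = y) ∧ D L J p y = y) ∧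
      D L J q y = y) ∧ g y = y) := by
    by_contra hno
    have h1 : IsEmpty {x : Q | x ∈ {x : Q | x ∈ {x : Q | x ∈ {x : Q | ∀ v ∈ V, v x = x} ∧
        D L J p x = x} ∧ D L J q x = x} ∧ g x = x} := ⟨fun x => hno ⟨x.1, x.2⟩⟩
    rw [Nat.card_of_isEmpty] at hS4
    exact absurd hS4 (by decide)
  have hyp' : p ≠ y := by
    intro hh
    rw [← hh, hgp] at hyg
    exact hpq hyg.symm
  have hDD : ∀ u x, D L J u x = x → D L J u * D L J x = D L J x * D L J u := by
    intro u x hux
    have h1 : D L J u * D L J x * (D L J u)⁻¹ = D L J (D L J u x) := by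
      have e1 := h.D_conj (G.inv_mem (h.memL u)) x
      have e2 := h.D_J ((L u)⁻¹ x)
      have e3 := h.D_conj (h.memL u) (J ((L u)⁻¹ x))
      have e4 : D L J u x = L u (J ((L u)⁻¹ x)) := rfl
      rw [e4, ← e3, ← e2, ← e1]
      have e5 : D L J u = L u * J * (L u)⁻¹ := rfl
      rw [e5, mul_inv_rev, mul_inv_rev, h.Jinv]
      group
    rw [hux, mul_inv_eq_iff_eq_mul] at h1
    exact h1
  have hcy := hDD p y hyp
  have hyfix : D L J y p = p := by
    apply h.D_inj
    have h1 : D L J y * D L J p * (D L J y)⁻¹ = D L J (D L J y p) := by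
      have e1 := h.D_conj (G.inv_mem (h.memL y)) p
      have e2 := h.D_J ((L y)⁻¹ p)
      have e3 := h.D_conj (h.memL y) (J ((L y)⁻¹ p))
      have e4 : D L J y p = L y (J ((L y)⁻¹ p)) := rfl
      rw [e4, ← e3, ← e2, ← e1]
      have e5 : D L J y = L y * J * (L y)⁻¹ := rfl
      rw [e5, mul_inv_rev, mul_inv_rev, h.Jinv]
      group
    rw [← h1, ← hcy]; group
  obtain ⟨w, hw⟩ : ∃ w : Perm Q, w = D L J p * D L J y := ⟨_, rfl⟩
  have hwG : w ∈ G := by rw [hw]; exact h.D_mul_mem p y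
  have hwp : w p = p := by rw [hw, Perm.mul_apply, hyfix, h.D_self]
  have hwy : w y = y := by rw [hw, Perm.mul_apply, h.D_self, hyp]
  have hw2 : w ^ 2 ^ 1 = 1 := by
    rw [pow_one, pow_two, hw]
    calc D L J p * D L J y * (D L J p * D L J y) = D L J p * (D L J y * D L J p) * D L J y := by group
      _ = (D L J p * D L J p) * (D L J y * D L J y) := by rw [← hcy]; group
      _ = 1 := by rw [h.D_sq, h.D_sq, one_mul]
  have hwV : ∀ v ∈ V, v * w = w * v := by
    intro v hv
    have e1 := hDV v hv p (hVpq v hv).1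
    have e2 := hDV v hv y (hyV v hv)
    rw [hw]
    calc v * (D L J p * D L J y) = (v * D L J p) * D L J y := by group
      _ = D L J p * (v * D L J y) := by rw [e1]; group
      _ = _ := by rw [e2]; group
  have hmem : V ⊔ Subgroup.zpowers w ∈ Fam := by
    refine ⟨sup_le hVG (by rw [Subgroup.zpowers_le]; exact hwG), ?_, p, y, hyp', hcy, ?_⟩
    · refine hV2.to_sup_of_normal_left' (zpow2 hw2) ?_
      rw [Subgroup.zpowers_le, Subgroup.mem_normalizer_iff]
      intro v
      constructor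
      · intro hv
        have h1 : w * v * w⁻¹ = v := by rw [← hwV v hv]; group
        rw [h1]; exact hv
      · intro hv
        have h1 : w * v * w⁻¹ = v := by
          have h2 := hwV _ hv
          have h3 : v = w⁻¹ * (w * v * w⁻¹) * w := by group
          have h4 : w⁻¹ * (w * v * w⁻¹) * w = w * v * w⁻¹ := by
            rw [mul_assoc, h2]; group
          exact (h3.trans h4).symm
        rw [← h1]; exact hv
    · intro v hv
      have h1 : V ⊔ Subgroup.zpowers w ≤
          MulAction.stabilizer (Perm Q) p ⊓ MulAction.stabilizer (Perm Q) y := by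
        refine sup_le (fun v hv => ⟨(hVpq v hv).1, hyV v hv⟩) ?_
        rw [Subgroup.zpowers_le]
        exact ⟨hwp, hwy⟩
      exact h1 hv
  have hle := hmax hmem le_sup_left
  have hwV' : w ∈ V := hle (Subgroup.mem_sup_right (Subgroup.mem_zpowers w))
  have h1 := hgV w hwV'
  have h2 : g * w * g⁻¹ = w := by rw [← h1]; group
  have h3 : g * w * g⁻¹ = D L J q * D L J y := by
    rw [hw]
    calc g * (D L J p * D L J y) * g⁻¹ = (g * D L J p * g⁻¹) * (g * D L J y * g⁻¹) := by group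
      _ = _ := by rw [hgDp, h.D_conj hgG, hyg]
  rw [h3, hw] at h2
  exact hpq (h.D_inj (mul_right_cancel h2)).symm

/-- in a finite simple automorphic loop of odd order the inversion fixes only the identity -/
theorem hfix_odd [Finite Q] (h : AL G L J e) (hodd : Odd (Nat.card Q)) :
    ∀ x, J x = x → x = e := by
  intro x hx
  by_contra hne
  refine h.no_pair hodd (p₀ := e) (q₀ := x) (fun hh => hne hh.symm) ?_
  have h1 := h.D_J x
  rw [hx] at h1
  rw [h.D_e]
  calc J * D L J x = J * D L J x * J * J := by rw [mul_assoc _ J J, h.JJ1, mul_one]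
    _ = D L J x * J := by rw [h1]

end AL

end ALoop
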